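import Pool.Agent.H31.MP.Basic

/-! Row M6 of board mtp_modules: small sets have small measure. -/

set_option autoImplicit false

open Finset Real ArithmeticFunction
open scoped Nat

namespace Pool.Agent.H88.MTP

open Pool.Agent.H31.MP
open Pool.Agent.H30.BV (NX wx WX)

lemma wp_le {Z : ℝ} (hZ : Real.exp 1 ≤ Z) (m : ℕ) : 0 ≤ wp Z m ∧ wp Z m ≤ 2 := by
  have hZ0 : 0 < Z := (Real.exp_pos 1).trans_le hZ
  have hlog : 1 ≤ Real.log Z := by
    rw [Real.le_log_iff_exp_le hZ0]; exact hZ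
  unfold wp
  split_ifs with hm
  · have hm0 : 0 < (m : ℝ) := by exact_mod_cast hm.pos
    unfold wx
    rw [vonMangoldt_apply_prime hm]
    have hlm : 0 ≤ Real.log m := Real.log_nonneg (by exact_mod_cast hm.one_le)
    have h1 := Pool.Agent.H27.LS.hat_nonneg (Real.log (m / Z))
    have h2 := Pool.Agent.H27.LS.hat_le_one (Real.log (m / Z))
    refine ⟨by positivity, ?_⟩
    rw [div_le_iff₀ (by linarith)]
    by_cases h3 : 1 ≤ |Real.log (m / Z)|
    · rw [Pool.Agent.H27.LS.hat_eq_zero h3, mul_zero]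
      linarith
    · rw [not_le, abs_lt] at h3
      have h4 : Real.log m < Real.log Z + 1 := by
        have := h3.2
        rw [Real.log_div hm0.ne' hZ0.ne'] at this
        linarith
      calc Real.log m * Pool.Agent.H27.LS.hat (Real.log (m / Z)) ≤ Real.log m * 1 := by gcongr
        _ ≤ 2 * Real.log Z := by linarith
  · constructor <;> norm_num

open Classical in
theorem pf_M6 (hMO : T_MO) (hHU : T_HU) (hHC : T_HC) : T_M6 := by
  intro k y₀ δ c C κ hk hy hδ hδ1 hc hC hκ hκ8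
  obtain ⟨Cm, Z₁, hCm, hM⟩ := hMO (2 * k) δ hδ hδ1
  obtain ⟨c₁, H₀, hc₁, hHc⟩ := hHC k y₀
  set c₂ : ℝ := c₁ * κ ^ k * c with hc₂
  have hc₂0 : 0 < c₂ := by positivity
  have hk0 : 0 < (k : ℝ) := by exact_mod_cast hk
  refine ⟨2 * k * C ^ 2 * √Cm / c₂, max (max Z₁ (Real.exp 1)) (Real.exp (H₀ / κ)),
    by positivity, ?_⟩
  intro Z hZ l hl
  have hZ1 : Z₁ ≤ Z := le_trans (le_trans (le_max_left _ _) (le_max_left _ _)) hZ
  have hZe : Real.exp 1 ≤ Z := le_trans (le_trans (le_max_right _ _) (le_max_left _ _)) hZ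
  have hZH : Real.exp (H₀ / κ) ≤ Z := le_trans (le_max_right _ _) hZ
  have hZ0 : 0 < Z := (Real.exp_pos 1).trans_le hZe
  have hlog : 1 ≤ Real.log Z := by
    rw [Real.le_log_iff_exp_le hZ0]; exact hZe
  have hH : H₀ ≤ κ * Real.log Z := by
    have h1 : H₀ / κ ≤ Real.log Z := by
      rw [Real.le_log_iff_exp_le hZ0]; exact hZH
    rw [div_le_iff₀ hκ] at h1
    linarith
  obtain ⟨hcard, -⟩ := hHc _ hH
  -- the total normalization
  have hT : c₂ * Z ≤ Tn Z y₀ δ κ l := by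
    have h1 : ∑ h ∈ HH k y₀ (κ * Real.log Z), c * Z / Real.log Z ^ k ≤ Tn Z y₀ δ κ l :=
      Finset.sum_le_sum (fun h hh => (hl h hh).2)
    rw [Finset.sum_const, nsmul_eq_mul] at h1
    refine le_trans ?_ h1
    calc c₂ * Z = c₁ * (κ * Real.log Z) ^ k * (c * Z / Real.log Z ^ k) := by
          rw [hc₂, mul_pow]
          have : Real.log Z ^ k ≠ 0 := by positivity
          field_simp
      _ ≤ ((HH k y₀ (κ * Real.log Z)).card : ℝ) * (c * Z / Real.log Z ^ k) := by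
          gcongr
  have hcZ : 0 < c₂ * Z := by positivity
  have hT0 : 0 < Tn Z y₀ δ κ l := hcZ.trans_le hT
  refine ⟨hT0, ?_⟩
  intro B hB
  -- pointwise bound
  have hpt : ∀ n ∈ B, vm Z y₀ δ κ l n ≤ (c₂ * Z)⁻¹ * (2 * k * C ^ 2) * (UU Z δ n : ℝ) ^ k := by
    intro n hn
    unfold vm
    have h1 : ∀ h ∈ HH k y₀ (κ * Real.log Z), (∑ i : Fin k,
        if n ∈ Omr Z y₀ (Z ^ δ) h then
          wp Z (n + h i) * Lam (Z ^ δ) (Z ^ (κ / 4)) l h n ^ 2 else 0)
        ≤ if n ∈ Omr Z y₀ (Z ^ δ) h then 2 * k * C ^ 2 else 0 := by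
      intro h hh
      split_ifs with hmem
      · have h2 : ∀ i ∈ (Finset.univ : Finset (Fin k)),
            wp Z (n + h i) * Lam (Z ^ δ) (Z ^ (κ / 4)) l h n ^ 2 ≤ 2 * C ^ 2 := by
          intro i _
          have h3 := (hl h hh).1 n (hB hn)
          have h4 : Lam (Z ^ δ) (Z ^ (κ / 4)) l h n ^ 2 ≤ C ^ 2 := by
            rw [← sq_abs]
            gcongr
          have h5 := wp_le hZe (n + h i)
          exact mul_le_mul h5.2 h4 (sq_nonneg _) (by norm_num)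
        refine (Finset.sum_le_sum h2).trans ?_
        rw [Finset.sum_const, Finset.card_univ, Fintype.card_fin, nsmul_eq_mul]
        linarith
      · simp
    have h2 : (∑ h ∈ HH k y₀ (κ * Real.log Z),
        if n ∈ Omr Z y₀ (Z ^ δ) h then 2 * (k : ℝ) * C ^ 2 else 0)
        ≤ 2 * k * C ^ 2 * (UU Z δ n : ℝ) ^ k := by
      rw [← Finset.sum_filter, Finset.sum_const, nsmul_eq_mul, mul_comm]
      by_cases hOm : n ∈ Om Z y₀
      · gcongr
        convert hHU k y₀ Z δ κ n hlog (by linarith) hy hOm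
      · have h3 : (HH k y₀ (κ * Real.log Z)).filter (fun h => n ∈ Omr Z y₀ (Z ^ δ) h) = ∅ := by
          rw [Finset.filter_eq_empty_iff]
          intro h _ hmem
          unfold Omr at hmem
          exact hOm (Finset.mem_filter.1 hmem).1
        rw [h3, Finset.card_empty]
        simp only [Nat.cast_zero, mul_zero]
        positivity
    calc (Tn Z y₀ δ κ l)⁻¹ * ∑ h ∈ HH k y₀ (κ * Real.log Z), ∑ i : Fin k,
          (if n ∈ Omr Z y₀ (Z ^ δ) h then
            wp Z (n + h i) * Lam (Z ^ δ) (Z ^ (κ / 4)) l h n ^ 2 else 0)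
        ≤ (Tn Z y₀ δ κ l)⁻¹ * (2 * k * C ^ 2 * (UU Z δ n : ℝ) ^ k) := by
          have h3 := (Finset.sum_le_sum h1).trans h2
          have h4 : 0 ≤ (Tn Z y₀ δ κ l)⁻¹ := by positivity
          exact mul_le_mul_of_nonneg_left h3 h4
      _ ≤ (c₂ * Z)⁻¹ * (2 * k * C ^ 2 * (UU Z δ n : ℝ) ^ k) := by
          gcongr
      _ = (c₂ * Z)⁻¹ * (2 * k * C ^ 2) * (UU Z δ n : ℝ) ^ k := by ring
  have hCS : ∑ n ∈ B, (UU Z δ n : ℝ) ^ k ≤ √(B.card : ℝ) * √(Cm * Z) := by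
    have h1 : (∑ n ∈ B, (UU Z δ n : ℝ) ^ k) ^ 2 ≤ (B.card : ℝ) * (Cm * Z) := by
      have h2 := sq_sum_le_card_mul_sum_sq (s := B) (f := fun n => (UU Z δ n : ℝ) ^ k)
      refine h2.trans ?_
      gcongr
      have h3 : ∑ n ∈ B, ((UU Z δ n : ℝ) ^ k) ^ 2 ≤ ∑ n ∈ Icc 1 (NX Z), (UU Z δ n : ℝ) ^ (2 * k) := by
        calc ∑ n ∈ B, ((UU Z δ n : ℝ) ^ k) ^ 2 = ∑ n ∈ B, (UU Z δ n : ℝ) ^ (2 * k) := by
              refine Finset.sum_congr rfl (fun n _ => ?_)
              rw [← pow_mul, mul_comm]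
          _ ≤ _ := Finset.sum_le_sum_of_subset_of_nonneg hB (fun _ _ _ => by positivity)
      exact h3.trans (hM Z hZ1)
    rw [← Real.sqrt_mul (by positivity)]
    exact Real.le_sqrt_of_sq_le h1
  calc ∑ n ∈ B, vm Z y₀ δ κ l n
      ≤ ∑ n ∈ B, (c₂ * Z)⁻¹ * (2 * k * C ^ 2) * (UU Z δ n : ℝ) ^ k := Finset.sum_le_sum hpt
    _ = (c₂ * Z)⁻¹ * (2 * k * C ^ 2) * ∑ n ∈ B, (UU Z δ n : ℝ) ^ k := by rw [Finset.mul_sum]
    _ ≤ (c₂ * Z)⁻¹ * (2 * k * C ^ 2) * (√(B.card : ℝ) * √(Cm * Z)) := by gcongr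
    _ = 2 * k * C ^ 2 * √Cm / c₂ * √((B.card : ℝ) / Z) := by
        rw [Real.sqrt_mul hCm.le, Real.sqrt_div (by positivity)]
        have h1 : √Z * √Z = Z := Real.mul_self_sqrt hZ0.le
        have h2 : √Z ≠ 0 := (Real.sqrt_pos.2 hZ0).ne'
        field_simp
        rw [Real.sq_sqrt hZ0.le]
        ring

end Pool.Agent.H88.MTP
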